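import Pool.Agent.helper41.HFE.SpecK

set_option autoImplicit false

open Polynomial Module Pool.Agent.HFN

namespace Pool.Agent.HFE

noncomputable section

theorem COK : COK_stmt := by
  intro hAff hTRM hX hY κ h h' x y M W a b hκ hx hy hcol hrow hM hB i j hUk
  have hcard := (hTRM h h' x y M hx hy hcol hrow hM).1
  have hi := hUk.1
  have hj := hUk.2.1
  have hij := hUk.2.2.1
  obtain ⟨f, hf0, hCD, hor, heq⟩ := (hAff (Pool.Agent.helper29.JZ.ZZ x y M) i j).2.2 (by omega) (by omega) (by rw [hcard]; exact hij)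
  have hCD1 := hCD.1
  have hCD2 := hCD.2.1
  rcases hor with hd | hd
  · have h1 := hX κ h h' x y M W a b hκ hx hy hcol hrow hM hB i j hUk f hf0 hd (by omega)
    omega
  · have h1 := hY κ h h' x y M W a b hκ hx hy hcol hrow hM hB i j hUk f hf0 hd (by omega)
    omega

end

end Pool.Agent.HFE
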